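import Pool.Agent.H20.SPL.ChudnovskyDemaillyProof

/-!
# The Chudnovsky–Demailly bound for Waldschmidt constants of fat points

We prove that for every field `K`, every `N ≥ 1`, every fat point scheme `Z` in `ℙ^N` and every
`m ≥ 1` the Waldschmidt constant `lim α(I(kZ)) / k` is at least `(α(I(mZ)) + N - 1) / (m + N - 1)`.

Sketch of the proof. Let `W = mZ`, with support `Y`.

* Characteristic `p`, `K` perfect, `q = p ^ e`. Let `D ≠ 0` be a form of degree `t` vanishing to
  order at least `q w_i + (N - 1)(q - 1)` at each point, where `w_i` are the multiplicities of `W`.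
  Then `D ∈ I(W)^[q]` (Frobenius power). If `t < q α(W) + (N - 1)(q - 1)` then, comparing in
  coordinates centred at a point the monomials `x ^ (q c + b)` (`0 ≤ b_i < q`) of `D`, one gets
  inductively `D ∈ I(W + kY)^[q]` for all `k`: a monomial with `|c| = w_i + k` would need
  `|b| ≥ (N - 1)(q - 1) - q k`, and `t ≥ q α(W + kY) + |b|` where `α(W + kY) ≥ α(W) + k`. This is
  absurd, so `α(q W + (N - 1)(q - 1) Y) ≥ q α(W) + (N - 1)(q - 1)`. The inequality
  `α(W + Y) ≥ α(W) + 1` follows by taking a derivative, or a `p`-th root if all derivatives vanish.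
* An arbitrary field is reduced to this case by a valuation ring of `K` with positive residue
  characteristic containing the coordinates of the points and the entries of a left inverse of the
  matrix of the vanishing conditions in degree `α(W) - 1`.
* Let `e → ∞`.
-/

open MvPolynomial

namespace Pool.Agent.Results.MP_6bebef_ag.ChudnovskyDemailly

/-- **Chudnovsky–Demailly bound for fat points.** For every field `K`, every `N ≥ 1` and every
fat point scheme `Z ≠ 0` in `ℙ^N` over `K`, the limit defining the Waldschmidt constant exists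
and `α̂(I(Z)) ≥ (α(I(mZ)) + N - 1) / (m + N - 1)` for all `m ≥ 1`. -/
theorem result {K : Type*} [Field K] {N : ℕ} (hN : 1 ≤ N)
    (Z : Projectivization K (Fin (N + 1) → K) →₀ ℕ) (hZ : Z ≠ 0) :
    Filter.Tendsto (fun m : ℕ => (alpha (fatIdeal (m • Z)) : ℝ) / m) Filter.atTop
      (nhds (waldschmidt Z)) ∧
    ∀ m : ℕ, 1 ≤ m →
      ((alpha (fatIdeal (m • Z)) : ℝ) + N - 1) / (m + N - 1) ≤ waldschmidt Z :=
  result_proof hN Z hZ

end Pool.Agent.Results.MP_6bebef_ag.ChudnovskyDemailly
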